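import Pool.Agent.H482R3.EB.Stm

set_option autoImplicit false

/-! Project EB (helper482), task GGB: geometry of cosets. -/

namespace Pool.Agent.Helper750.EB

open Pool.Agent.H482R3.EB
open Pool.Agent.H482R3.EA (cV cW LIdx)

section
variable {V Wt : Type} (c : V ⊕ Wt → V ⊕ Wt → ℕ)

lemma eq_of {p : PB c} {a b : Σ i : LIdx c, AR (cW c) ⧸ Subgroup.zpowers (gR (cW c) i.1.2)}
    (h1 : IB c p (Sum.inr a)) (h2 : IB c p (Sum.inr b)) (h : a.1.1.2 = b.1.1.2) : a = b := by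
  obtain ⟨i, C⟩ := a
  obtain ⟨j, D⟩ := b
  have h3 : p.2 = i.1.1 := h1.1
  have h4 : p.2 = j.1.1 := h2.1
  have hij : i = j := Subtype.ext (Prod.ext (h3.symm.trans h4) h)
  subst hij
  have h5 : (QuotientGroup.mk p.1 : AR (cW c) ⧸ Subgroup.zpowers (gR (cW c) i.1.2)) = C := h1.2
  have h6 : (QuotientGroup.mk p.1 : AR (cW c) ⧸ Subgroup.zpowers (gR (cW c) i.1.2)) = D := h2.2
  rw [← h5, ← h6]

lemma pow_of {p q : PB c}
    {a : Σ i : LIdx c, AR (cW c) ⧸ Subgroup.zpowers (gR (cW c) i.1.2)}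
    (h1 : IB c p (Sum.inr a)) (h2 : IB c q (Sum.inr a)) :
    p.2 = q.2 ∧ ∃ n : ℤ, p.1⁻¹ * q.1 = gR (cW c) a.1.1.2 ^ n := by
  obtain ⟨i, C⟩ := a
  have h3 : p.2 = i.1.1 := h1.1
  have h4 : q.2 = i.1.1 := h2.1
  have h5 : (QuotientGroup.mk p.1 : AR (cW c) ⧸ Subgroup.zpowers (gR (cW c) i.1.2)) = C := h1.2
  have h6 : (QuotientGroup.mk q.1 : AR (cW c) ⧸ Subgroup.zpowers (gR (cW c) i.1.2)) = C := h2.2
  refine ⟨h3.trans h4.symm, ?_⟩
  have h7 := QuotientGroup.eq.1 (h5.trans h6.symm)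
  obtain ⟨n, hn⟩ := Subgroup.mem_zpowers_iff.1 h7
  exact ⟨n, hn.symm⟩

end

theorem t_GGB (_hT : S_TOT) : S_GGB := by
  intro V Wt c hTame
  have G1 : ∀ (l m : LnB c) (p q : PB c), l ≠ m → IB c p l → IB c q l → IB c p m →
      IB c q m → p = q := by
    rintro (g | a) (g' | b) p q hlm hpl hql hpm hqm
    · exfalso
      apply hlm
      have e1 : p.1 = g := hpl
      have e2 : p.1 = g' := hpm
      rw [← e1, ← e2]
    · have e1 : p.1 = g := hpl
      have e2 : q.1 = g := hql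
      have e3 := (pow_of c hpm hqm).1
      exact Prod.ext (e1.trans e2.symm) e3
    · have e1 : p.1 = g' := hpm
      have e2 : q.1 = g' := hqm
      have e3 := (pow_of c hpl hql).1
      exact Prod.ext (e1.trans e2.symm) e3
    · have hw : a.1.1.2 ≠ b.1.1.2 := by
        intro h
        exact hlm (congrArg Sum.inr (eq_of c hpl hpm h))
      obtain ⟨e3, n, hn⟩ := pow_of c hpl hql
      obtain ⟨-, n', hn'⟩ := pow_of c hpm hqm
      have e4 : n = 0 := by
        have h5 : gR (cW c) a.1.1.2 ^ n * gR (cW c) b.1.1.2 ^ (-n') = 1 := by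
          rw [← hn, hn', zpow_neg, mul_inv_cancel]
        exact (hTame.i2 _ _ _ _ hw h5).1
      rw [e4, zpow_zero, inv_mul_eq_one] at hn
      exact Prod.ext hn e3
  refine ⟨G1, ?_⟩
  rintro (g | a) (g' | b) (g'' | d) p q r hlm hmk hkl hpl hpm hqm hqk hrk hrl
  · exfalso
    apply hlm
    have e1 : p.1 = g := hpl
    have e2 : p.1 = g' := hpm
    rw [← e1, ← e2]
  · exfalso
    apply hlm
    have e1 : p.1 = g := hpl
    have e2 : p.1 = g' := hpm
    rw [← e1, ← e2]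
  · exfalso
    apply hkl
    have e1 : r.1 = g := hrl
    have e2 : r.1 = g'' := hrk
    rw [← e1, ← e2]
  · have e1 : p.1 = g := hpl
    have e2 : r.1 = g := hrl
    have e3 := (pow_of c hpm hqm).1
    have e4 := (pow_of c hqk hrk).1
    have e5 : p = r := Prod.ext (e1.trans e2.symm) (e3.trans e4)
    subst e5
    exact G1 _ _ p q hmk hpm hqm hrk hqk
  · exfalso
    apply hmk
    have e1 : q.1 = g' := hqm
    have e2 : q.1 = g'' := hqk
    rw [← e1, ← e2]
  · have e1 : p.1 = g' := hpm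
    have e2 : q.1 = g' := hqm
    have e3 := (pow_of c hrl hpl).1
    have e4 := (pow_of c hqk hrk).1
    exact Prod.ext (e1.trans e2.symm) (e3.symm.trans e4.symm)
  · have e1 : q.1 = g'' := hqk
    have e2 : r.1 = g'' := hrk
    have e3 := (pow_of c hpm hqm).1
    have e4 := (pow_of c hrl hpl).1
    have e5 : r = q := Prod.ext (e2.trans e1.symm) (e4.trans e3)
    subst e5
    exact G1 _ _ p r hlm hpl hrl hpm hqm
  · have hab : b.1.1.2 ≠ a.1.1.2 := by
      intro h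
      exact hlm (congrArg Sum.inr (eq_of c hpl hpm h.symm))
    have hbd : b.1.1.2 ≠ d.1.1.2 := by
      intro h
      exact hmk (congrArg Sum.inr (eq_of c hqm hqk h))
    obtain ⟨e3, x, hx⟩ := pow_of c hpm hqm
    obtain ⟨-, y, hy⟩ := pow_of c hqk hrk
    obtain ⟨-, z, hz⟩ := pow_of c hrl hpl
    have hprod : gR (cW c) b.1.1.2 ^ x * gR (cW c) d.1.1.2 ^ y * gR (cW c) a.1.1.2 ^ z = 1 := by
      rw [← hx, ← hy, ← hz]
      group
    have e4 : x = 0 := by
      by_cases hda : d.1.1.2 = a.1.1.2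
      · rw [← hda, mul_assoc, ← zpow_add] at hprod
        exact (hTame.i2 _ _ _ _ hbd hprod).1
      · exact (hTame.i3 _ _ _ _ _ _ hbd hda hab hprod).1
    rw [e4, zpow_zero, inv_mul_eq_one] at hx
    exact Prod.ext hx e3

end Pool.Agent.Helper750.EB
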